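import Mathlib
import Pool.Agent.Helper259.HtDef
import Pool.Agent.Helper259.HtLower

set_option autoImplicit false

namespace Pool.Agent.Results.MP_3d4caa_nt.ExactValue

open Pool.Agent.Helper259.AbsHt

/-- The `Qbar`-points of projective `n`-space. -/
abbrev PSpace (n : ℕ) : Type := Projectivization Qbar (Fin (n + 1) → Qbar)

/-- Absolute logarithmic Weil height of a point of projective space. -/
noncomputable def ht {n : ℕ} (P : PSpace n) : ℝ := absLogHeight P.rep

/-- Zariski open subsets of projective space: the points at which some form of a given family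
of forms does not vanish. -/
def IsZariskiOpen {n : ℕ} (U : Set (PSpace n)) : Prop :=
  ∃ T : Set (MvPolynomial (Fin (n + 1)) Qbar), (∀ F ∈ T, ∃ e : ℕ, F.IsHomogeneous e) ∧
    U = {P : PSpace n | ∃ F ∈ T, MvPolynomial.eval P.rep F ≠ 0}

/-- A rational map of degree `d` from projective `n`-space to itself: `n + 1` forms of degree `d`
without common factor. -/
structure RatMap (n d : ℕ) where
  /-- the forms -/
  form : Fin (n + 1) → MvPolynomial (Fin (n + 1)) Qbar
  homogeneous : ∀ i, (form i).IsHomogeneous d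
  coprime : ∀ G : MvPolynomial (Fin (n + 1)) Qbar, (∀ i, G ∣ form i) → IsUnit G

namespace RatMap

variable {n d : ℕ}

/-- `f` is defined at `P` if the forms do not all vanish at `P`. -/
def DefinedAt (f : RatMap n d) (P : PSpace n) : Prop :=
  (fun i => MvPolynomial.eval P.rep (f.form i)) ≠ 0

/-- the value of `f` at a point where it is defined -/
noncomputable def value (f : RatMap n d) (P : PSpace n) (hP : f.DefinedAt P) : PSpace n :=
  Projectivization.mk Qbar (fun i => MvPolynomial.eval P.rep (f.form i)) hP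

/-- `f` is dominant if its image is Zariski dense: it meets every nonempty open set. -/
def IsDominant (f : RatMap n d) : Prop :=
  ∀ U : Set (PSpace n), IsZariskiOpen U → U.Nonempty →
    ∃ (P : PSpace n) (hP : f.DefinedAt P), f.value P hP ∈ U

/-- The height expansion ratio: the supremum over all nonempty Zariski open `U` of the lower limit
of `h (f P) / h P` for `P` in `U` (where `f` is defined) and `h P` tending to infinity. -/
noncomputable def mu (f : RatMap n d) : EReal :=
  ⨆ (U : Set (PSpace n)) (_ : IsZariskiOpen U) (_ : U.Nonempty),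
    Filter.liminf
      (fun P : {P : PSpace n // P ∈ U ∧ f.DefinedAt P} =>
        ((ht (f.value P.1 P.2.2) / ht P.1 : ℝ) : EReal))
      (Filter.comap (fun P : {P : PSpace n // P ∈ U ∧ f.DefinedAt P} => ht P.1) Filter.atTop)

end RatMap

/-- The infimum of the height expansion ratios of the dominant rational maps of degree `d`. -/
noncomputable def muBar (n d : ℕ) : EReal := ⨅ (f : RatMap n d) (_ : f.IsDominant), f.mu

lemma eval_smul {n : ℕ} {F : MvPolynomial (Fin (n + 1)) Qbar} {d : ℕ} (hF : F.IsHomogeneous d)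
    (c : Qbar) (x : Fin (n + 1) → Qbar) :
    MvPolynomial.eval (c • x) F = c ^ d * MvPolynomial.eval x F := by
  rw [MvPolynomial.eval_eq', MvPolynomial.eval_eq', Finset.mul_sum]
  refine Finset.sum_congr rfl fun s hs => ?_
  have hdeg : ∑ i, s i = d := by
    have h := hF (MvPolynomial.mem_support_iff.mp hs)
    have h2 : Finsupp.degree s = d := by
      rw [← h, Finsupp.degree_eq_weight_one]; rfl
    rw [← h2, Finsupp.degree_eq_sum]
  simp only [Pi.smul_apply, smul_eq_mul, mul_pow]
  rw [Finset.prod_mul_distrib, Finset.prod_pow_eq_pow_sum, hdeg]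
  ring

lemma ht_mk {n : ℕ} (x : Fin (n + 1) → Qbar) (hx : x ≠ 0) :
    ht (Projectivization.mk Qbar x hx : PSpace n) = absLogHeight x := by
  obtain ⟨a, ha⟩ := Projectivization.exists_smul_eq_mk_rep Qbar x hx
  rw [ht, ← ha]
  exact absLogHeight_smul x a.ne_zero

lemma eval_mk {n : ℕ} {F : MvPolynomial (Fin (n + 1)) Qbar} {d : ℕ} (hF : F.IsHomogeneous d)
    (x : Fin (n + 1) → Qbar) (hx : x ≠ 0) :
    MvPolynomial.eval (Projectivization.mk Qbar x hx : PSpace n).rep F ≠ 0 ↔
      MvPolynomial.eval x F ≠ 0 := by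
  obtain ⟨a, ha⟩ := Projectivization.exists_smul_eq_mk_rep Qbar x hx
  rw [← ha, show (a • x : Fin (n + 1) → Qbar) = (a : Qbar) • x from rfl, eval_smul hF]
  simp [a.ne_zero]

/-- a nonzero polynomial is nonzero at a point with nonzero first coordinate -/
lemma exists_point {n : ℕ} (F : MvPolynomial (Fin (n + 1)) Qbar) (hF : F ≠ 0) :
    ∃ x : Fin (n + 1) → Qbar, x 0 ≠ 0 ∧ MvPolynomial.eval x F ≠ 0 := by
  by_contra hcon
  push Not at hcon
  have h1 : F * MvPolynomial.X 0 = 0 := by
    apply MvPolynomial.funext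
    intro x
    rw [map_mul, MvPolynomial.eval_X, map_zero]
    by_cases hx : x 0 = 0
    · rw [hx, mul_zero]
    · rw [hcon x hx, zero_mul]
  rcases mul_eq_zero.mp h1 with h | h
  · exact hF h
  · exact MvPolynomial.X_ne_zero _ h

/-! ### Lower bound -/

lemma le_mu (n : ℕ) {d : ℕ} (hd : 0 < d) (f : RatMap (n + 1) d) (hf : f.IsDominant) :
    ((1 / (d : ℝ) ^ n : ℝ) : EReal) ≤ f.mu := by
  obtain ⟨r, c, hc0, hchom, C, hC⟩ := Pool.Agent.Helper259.HtLower.lower n hd f.form f.homogeneous
  set G : MvPolynomial (Fin (n + 1 + 1)) Qbar := MvPolynomial.aeval f.form c with hG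
  have hGhom : G.IsHomogeneous (d * r) := hchom.aeval _ f.homogeneous
  have hGeval : ∀ x, MvPolynomial.eval x G =
      MvPolynomial.eval (fun i => MvPolynomial.eval x (f.form i)) c := by
    intro x
    have := MvPolynomial.eval₂_comp_left (MvPolynomial.eval x)
      (algebraMap Qbar (MvPolynomial (Fin (n + 1 + 1)) Qbar)) f.form c
    have h2 : (MvPolynomial.eval x).comp
        (algebraMap Qbar (MvPolynomial (Fin (n + 1 + 1)) Qbar)) = RingHom.id Qbar := by
      ext a; simp [MvPolynomial.algebraMap_eq]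
    rw [h2] at this
    exact this
  set U : Set (PSpace (n + 1)) := {P | ∃ F ∈ ({G} : Set (MvPolynomial (Fin (n + 1 + 1)) Qbar)),
    MvPolynomial.eval P.rep F ≠ 0} with hU
  have hUopen : IsZariskiOpen U := ⟨{G}, by
    rintro F rfl; exact ⟨_, hGhom⟩, rfl⟩
  have hUne : U.Nonempty := by
    have hU' : IsZariskiOpen {P : PSpace (n + 1) | ∃ F ∈
        ({c} : Set (MvPolynomial (Fin (n + 1 + 1)) Qbar)), MvPolynomial.eval P.rep F ≠ 0} :=
      ⟨{c}, by rintro F rfl; exact ⟨_, hchom⟩, rfl⟩
    obtain ⟨x, hx0, hx⟩ := exists_point c hc0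
    have hx0' : x ≠ 0 := by rintro rfl; exact hx0 rfl
    obtain ⟨P, hP, F, hF, hPF⟩ := hf _ hU' ⟨Projectivization.mk Qbar x hx0', c, rfl,
      (eval_mk hchom x hx0').mpr hx⟩
    rw [Set.mem_singleton_iff] at hF
    subst hF
    refine ⟨P, G, rfl, ?_⟩
    rw [hGeval]
    exact (eval_mk hchom _ hP).mp hPF
  have hD : (0 : ℝ) < (d : ℝ) ^ n := by positivity
  refine le_trans ?_ (le_iSup_of_le U (le_iSup_of_le hUopen (le_iSup_of_le hUne le_rfl)))
  refine le_of_forall_lt fun b hb => ?_
  obtain ⟨a, hba, ha⟩ := EReal.lt_iff_exists_real_btwn.mp hb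
  rw [EReal.coe_lt_coe_iff] at ha
  refine hba.trans_le ?_
  apply Filter.le_liminf_of_le
  · isBoundedDefault
  rw [Filter.eventually_comap]
  have hpos : 0 < 1 / (d : ℝ) ^ n - a := by linarith
  filter_upwards [Filter.eventually_ge_atTop (max 1 (C / (d : ℝ) ^ n / (1 / (d : ℝ) ^ n - a)))]
    with s hs P hPs
  rw [EReal.coe_le_coe_iff]
  have hs1 : 1 ≤ ht P.1 := by rw [hPs]; exact (le_max_left _ _).trans hs
  have hs2 : C / (d : ℝ) ^ n / (1 / (d : ℝ) ^ n - a) ≤ ht P.1 := by
    rw [hPs]; exact (le_max_right _ _).trans hs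
  obtain ⟨F, hF, hPF⟩ := P.2.1
  rw [Set.mem_singleton_iff] at hF
  subst hF
  rw [hGeval] at hPF
  have h1 := hC P.1.rep hPF
  have h2 : ht (f.value P.1 P.2.2) =
      absLogHeight (fun i => MvPolynomial.eval P.1.rep (f.form i)) := ht_mk _ _
  rw [← h2] at h1
  have h3 : absLogHeight P.1.rep = ht P.1 := rfl
  rw [h3] at h1
  rw [div_le_iff₀ hpos] at hs2
  rw [le_div_iff₀ (by linarith)]
  have h4 : (ht P.1 - C) / (d : ℝ) ^ n ≤ ht (f.value P.1 P.2.2) := by
    rw [div_le_iff₀ hD]; linarith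
  have h5 : (ht P.1 - C) / (d : ℝ) ^ n = ht P.1 * (1 / (d : ℝ) ^ n) - C / (d : ℝ) ^ n := by
    ring
  rw [h5] at h4
  nlinarith

/-! ### Upper bound -/

/-- solution of `x (j + 1) + x j ^ d = y (j + 1)`, `x 0 = 1` -/
def pre {R : Type*} [CommRing R] (d : ℕ) (y : ℕ → R) : ℕ → R
  | 0 => 1
  | (j + 1) => y (j + 1) - pre d y j ^ d

lemma map_pre {R S : Type*} [CommRing R] [CommRing S] (φ : R →+* S) (d : ℕ) (y : ℕ → R) (j : ℕ) :
    φ (pre d y j) = pre d (fun i => φ (y i)) j := by
  induction j with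
  | zero => simp [pre]
  | succ j ih => simp only [pre, map_sub, map_pow, ih]

/-- the forms of the extremal map -/
noncomputable def shiftForm (n d : ℕ) : Fin (n + 1 + 1) → MvPolynomial (Fin (n + 1 + 1)) Qbar :=
  Fin.cons (MvPolynomial.X 0 ^ d) (fun j : Fin (n + 1) =>
    MvPolynomial.X j.succ * MvPolynomial.X 0 ^ (d - 1) + MvPolynomial.X j.castSucc ^ d)

lemma shift_homog (n : ℕ) {d : ℕ} (hd : 2 ≤ d) (i : Fin (n + 1 + 1)) :
    (shiftForm n d i).IsHomogeneous d := by
  refine Fin.cases ?_ (fun j => ?_) i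
  · exact MvPolynomial.isHomogeneous_X_pow _ _
  · rw [shiftForm, Fin.cons_succ]
    refine MvPolynomial.IsHomogeneous.add ?_ (MvPolynomial.isHomogeneous_X_pow _ _)
    have := (MvPolynomial.isHomogeneous_X Qbar j.succ).mul
      (MvPolynomial.isHomogeneous_X_pow (R := Qbar) (0 : Fin (n + 1 + 1)) (d - 1))
    rwa [show 1 + (d - 1) = d by omega] at this

lemma shift_coprime {n : ℕ} (hn : 1 ≤ n) {d : ℕ} (hd : 2 ≤ d)
    (G : MvPolynomial (Fin (n + 1 + 1)) Qbar) (hG : ∀ i, G ∣ shiftForm n d i) : IsUnit G := by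
  have h0 : G ∣ MvPolynomial.X 0 ^ d := hG 0
  have hprime : Prime (MvPolynomial.X 0 : MvPolynomial (Fin (n + 1 + 1)) Qbar) :=
    MvPolynomial.X_prime
  obtain ⟨k, hk, hass⟩ := (dvd_prime_pow hprime d).mp h0
  rcases Nat.eq_zero_or_pos k with rfl | hkpos
  · rw [pow_zero] at hass
    exact hass.isUnit_iff.mpr isUnit_one
  · exfalso
    have h1 : (MvPolynomial.X 0 : MvPolynomial (Fin (n + 1 + 1)) Qbar) ∣
        shiftForm n d (Fin.last n).succ :=
      ((dvd_pow_self _ hkpos.ne').trans hass.symm.dvd).trans (hG _)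
    obtain ⟨q, hq⟩ := h1
    have h2 := congrArg (MvPolynomial.eval (fun i : Fin (n + 1 + 1) =>
      if i = (Fin.last n).castSucc then (1 : Qbar) else 0)) hq
    rw [shiftForm, Fin.cons_succ, map_add, map_mul, map_mul, map_pow, map_pow] at h2
    simp only [MvPolynomial.eval_X] at h2
    have h3 : (0 : Fin (n + 1 + 1)) ≠ (Fin.last n).castSucc := by
      intro h
      have := congrArg Fin.val h
      simp at this
      omega
    rw [if_neg h3, zero_mul, zero_pow (by omega), mul_zero, zero_add] at h2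
    simp at h2

/-- the extremal map -/
noncomputable def shiftMap {n : ℕ} (hn : 1 ≤ n) {d : ℕ} (hd : 2 ≤ d) : RatMap (n + 1) d where
  form := shiftForm n d
  homogeneous := shift_homog n hd
  coprime := shift_coprime hn hd

lemma eval_shift (n : ℕ) {d : ℕ} (y : ℕ → Qbar) :
    (fun i => MvPolynomial.eval (fun i : Fin (n + 1 + 1) => pre d y i) (shiftForm n d i)) =
      fun i : Fin (n + 1 + 1) => if (i : ℕ) = 0 then 1 else y i := by
  funext i
  refine Fin.cases ?_ (fun j => ?_) i
  · simp [shiftForm, pre]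
  · rw [shiftForm, Fin.cons_succ]
    simp [pre]

lemma value_mk {n d : ℕ} (f : RatMap n d) (x : Fin (n + 1) → Qbar) (hx : x ≠ 0)
    (hv : (fun i => MvPolynomial.eval x (f.form i)) ≠ 0) :
    ∃ h : f.DefinedAt (Projectivization.mk Qbar x hx),
      f.value (Projectivization.mk Qbar x hx) h = Projectivization.mk Qbar _ hv := by
  obtain ⟨a, ha⟩ := Projectivization.exists_smul_eq_mk_rep Qbar x hx
  have h1 : (fun i => MvPolynomial.eval (Projectivization.mk Qbar x hx).rep (f.form i)) =
      (a : Qbar) ^ d • (fun i => MvPolynomial.eval x (f.form i)) := by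
    funext i
    rw [← ha, show (a • x : Fin (n + 1) → Qbar) = (a : Qbar) • x from rfl,
      eval_smul (f.homogeneous i)]
    rfl
  have ha0 : (a : Qbar) ^ d ≠ 0 := pow_ne_zero _ a.ne_zero
  have h : f.DefinedAt (Projectivization.mk Qbar x hx) := by
    rw [RatMap.DefinedAt, h1]
    exact smul_ne_zero ha0 hv
  exact ⟨h, (Projectivization.mk_eq_mk_iff' Qbar _ _ h hv).mpr ⟨(a : Qbar) ^ d, h1.symm⟩⟩

lemma shift_dominant {n : ℕ} (hn : 1 ≤ n) {d : ℕ} (hd : 2 ≤ d) : (shiftMap hn hd).IsDominant := by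
  rintro U ⟨T, hT, rfl⟩ ⟨P0, F, hF, hPF⟩
  obtain ⟨e, he⟩ := hT F hF
  have hF0 : F ≠ 0 := by rintro rfl; exact hPF (map_zero _)
  obtain ⟨x, hx0, hx⟩ := exists_point F hF0
  let y : ℕ → Qbar := fun j => if h : j < n + 1 + 1 then (x 0)⁻¹ * x ⟨j, h⟩ else 0
  have hy : (fun i : Fin (n + 1 + 1) => if (i : ℕ) = 0 then 1 else y i) = (x 0)⁻¹ • x := by
    funext i
    simp only [y, Pi.smul_apply, smul_eq_mul, Fin.is_lt, dite_true, Fin.eta]
    split_ifs with h
    · have : i = 0 := Fin.ext h
      rw [this, inv_mul_cancel₀ hx0]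
    · rfl
  have hp0 : (fun i : Fin (n + 1 + 1) => pre d y i) ≠ 0 := by
    intro h
    have := congrFun h 0
    simp [pre] at this
  have hv0 : (fun i => MvPolynomial.eval (fun i : Fin (n + 1 + 1) => pre d y i)
      ((shiftMap hn hd).form i)) ≠ 0 := by
    intro h
    have h2 := congrFun h 0
    have h3 := congrFun (eval_shift n (d := d) y) 0
    rw [show (shiftMap hn hd).form = shiftForm n d from rfl] at h2
    rw [h3] at h2
    simp at h2
  obtain ⟨h, hval⟩ := value_mk (shiftMap hn hd) _ hp0 hv0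
  refine ⟨_, h, F, hF, ?_⟩
  rw [hval, eval_mk he]
  have h4 : (fun i => MvPolynomial.eval (fun i : Fin (n + 1 + 1) => pre d y i)
      ((shiftMap hn hd).form i)) = (x 0)⁻¹ • x := by
    rw [← hy]; exact eval_shift n y
  rw [h4, eval_smul he]
  exact mul_ne_zero (pow_ne_zero _ (inv_ne_zero hx0)) hx

/-- growth of the coordinates -/
lemma growth {d : ℕ} (hd : 2 ≤ d) (z : ℕ → ℤ) (j : ℕ) :
    ∃ c : ℝ, 0 < c ∧ ∀ᶠ t : ℕ in Filter.atTop, c * (t : ℝ) ^ (d ^ j) ≤
      |((pre d (fun i => if i = 1 then (t : ℤ) else z i) (j + 1) : ℤ) : ℝ)| := by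
  induction j with
  | zero =>
    refine ⟨1 / 2, by norm_num, ?_⟩
    filter_upwards [Filter.eventually_ge_atTop 2] with t ht
    have ht' : (2 : ℝ) ≤ t := by exact_mod_cast ht
    simp only [pre, zero_add, if_true, pow_zero, one_pow, pow_one]
    push_cast
    rw [abs_of_nonneg (by linarith)]
    linarith
  | succ j ih =>
    obtain ⟨c, hc, h⟩ := ih
    refine ⟨c ^ d / 2, by positivity, ?_⟩
    have hne : d ^ (j + 1) ≠ 0 := pow_ne_zero _ (by omega)
    have htend : Filter.Tendsto (fun t : ℕ => c ^ d / 2 * (t : ℝ) ^ (d ^ (j + 1)))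
        Filter.atTop Filter.atTop :=
      Filter.Tendsto.const_mul_atTop (by positivity)
        ((Filter.tendsto_pow_atTop hne).comp tendsto_natCast_atTop_atTop)
    filter_upwards [h, htend.eventually_ge_atTop |((z (j + 2) : ℤ) : ℝ)|] with t h1 h2
    have h3 : pre d (fun i => if i = 1 then (t : ℤ) else z i) (j + 1 + 1) =
        z (j + 2) - pre d (fun i => if i = 1 then (t : ℤ) else z i) (j + 1) ^ d := by
      rw [pre, if_neg (by omega)]
    rw [h3]
    push_cast
    set X : ℝ := ((pre d (fun i => if i = 1 then (t : ℤ) else z i) (j + 1) : ℤ) : ℝ) with hX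
    have h4 : (c * (t : ℝ) ^ (d ^ j)) ^ d ≤ |X| ^ d :=
      pow_le_pow_left₀ (by positivity) h1 d
    rw [mul_pow, ← pow_mul, ← pow_succ] at h4
    have h5 : |X| ^ d - |((z (j + 2) : ℤ) : ℝ)| ≤ |((z (j + 2) : ℤ) : ℝ) - X ^ d| := by
      rw [← abs_pow]
      have := abs_sub_abs_le_abs_sub (X ^ d) ((z (j + 2) : ℤ) : ℝ)
      rwa [abs_sub_comm] at this
    linarith

lemma ae {σ : Type*} (v : σ → Qbar) (p : MvPolynomial σ Qbar) :
    MvPolynomial.aeval v p = MvPolynomial.eval v p := rfl

/-- the family of points avoids a given hypersurface, for suitable integers `z` -/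
lemma avoid {n : ℕ} (d : ℕ) (F : MvPolynomial (Fin (n + 1 + 1)) Qbar) {e : ℕ}
    (he : F.IsHomogeneous e) (hF : F ≠ 0) :
    ∃ z : ℕ → ℤ, ∀ᶠ t : ℕ in Filter.atTop, MvPolynomial.eval (fun i : Fin (n + 1 + 1) =>
      ((pre d (fun i => if i = 1 then (t : ℤ) else z i) i : ℤ) : Qbar)) F ≠ 0 := by
  classical
  obtain ⟨x, hx0, hx⟩ := exists_point F hF
  -- a point with first coordinate one
  let x0 : ℕ → Qbar := fun j => if h : j < n + 1 + 1 then (x 0)⁻¹ * x ⟨j, h⟩ else 0
  have hx00 : x0 0 = 1 := by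
    simp only [x0]
    rw [dif_pos (by omega)]
    exact inv_mul_cancel₀ hx0
  let u : ℕ → Qbar := fun j => x0 j + x0 (j - 1) ^ d
  have hu : ∀ j, pre d u j = x0 j := by
    intro j
    induction j with
    | zero => rw [pre, hx00]
    | succ j ih => rw [pre, ih]; simp [u]
  have hux : (fun i : Fin (n + 1 + 1) => pre d u i) = (x 0)⁻¹ • x := by
    funext i
    rw [hu]
    simp only [x0, Pi.smul_apply, smul_eq_mul, Fin.is_lt, dite_true, Fin.eta]
  set H : MvPolynomial ℕ Qbar :=
    MvPolynomial.aeval (fun i : Fin (n + 1 + 1) => pre d (MvPolynomial.X : ℕ → _) i) F with hH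
  have hHeval : ∀ v : ℕ → Qbar, MvPolynomial.eval v H =
      MvPolynomial.eval (fun i : Fin (n + 1 + 1) => pre d v i) F := by
    intro v
    rw [← ae, hH, MvPolynomial.comp_aeval_apply, ae]
    congr 2
    funext i
    have := map_pre (MvPolynomial.eval v) d (MvPolynomial.X : ℕ → MvPolynomial ℕ Qbar) i
    simpa using this
  have hH0 : H ≠ 0 := by
    intro h
    have h1 := hHeval u
    rw [h, map_zero, hux, eval_smul he] at h1
    exact mul_ne_zero (pow_ne_zero _ (inv_ne_zero hx0)) hx h1.symm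
  obtain ⟨z, hz⟩ : ∃ z : ℕ → ℤ, MvPolynomial.eval (fun i => (z i : Qbar)) H ≠ 0 := by
    by_contra hcon
    push Not at hcon
    apply hH0
    refine MvPolynomial.funext_set (fun _ => Set.range (fun a : ℤ => (a : Qbar)))
      (fun _ => Set.infinite_range_of_injective Int.cast_injective) fun v hv => ?_
    have hv' : ∀ i, ∃ a : ℤ, (a : Qbar) = v i := fun i => hv i (Set.mem_univ _)
    choose z hz using hv'
    rw [map_zero, ← hcon z]
    congr 2
    funext i
    exact (hz i).symm
  refine ⟨z, ?_⟩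
  set h : Polynomial Qbar := MvPolynomial.aeval (fun i : Fin (n + 1 + 1) =>
    pre d (fun j => if j = 1 then (Polynomial.X : Polynomial Qbar) else
      Polynomial.C ((z j : ℤ) : Qbar)) i) F with hh
  have hheval : ∀ v : Qbar, Polynomial.eval v h = MvPolynomial.eval (fun i : Fin (n + 1 + 1) =>
      pre d (fun j => if j = 1 then v else ((z j : ℤ) : Qbar)) i) F := by
    intro v
    have h1 : Polynomial.eval v h = Polynomial.aeval v h := by
      rw [Polynomial.coe_aeval_eq_eval]
    rw [h1, hh, MvPolynomial.comp_aeval_apply, ae]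
    congr 2
    funext i
    have h2 := map_pre (Polynomial.evalRingHom v) d (fun j => if j = 1 then
      (Polynomial.X : Polynomial Qbar) else Polynomial.C ((z j : ℤ) : Qbar)) i
    rw [Polynomial.coe_evalRingHom] at h2
    rw [Polynomial.coe_aeval_eq_eval, h2]
    congr 1
    funext j
    split_ifs <;> simp
  have hh0 : h ≠ 0 := by
    intro h0
    have h1 := hheval (z 1 : Qbar)
    rw [h0, Polynomial.eval_zero] at h1
    rw [hHeval] at hz
    apply hz
    rw [h1]
    congr 2
    funext i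
    congr 1
    funext j
    split_ifs with hj
    · rw [hj]
    · rfl
  have hfin : {t : ℕ | Polynomial.eval (t : Qbar) h = 0}.Finite := by
    have h1 : {t : ℕ | Polynomial.eval (t : Qbar) h = 0} ⊆
        (fun t : ℕ => (t : Qbar)) ⁻¹' (h.roots.toFinset : Set Qbar) := by
      intro t ht
      simp only [Set.mem_preimage, Finset.mem_coe, Multiset.mem_toFinset]
      rw [Polynomial.mem_roots hh0]
      exact ht
    exact ((Finset.finite_toSet _).preimage (Nat.cast_injective.injOn)).subset h1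
  have hev := hfin.eventually_cofinite_notMem
  rw [Nat.cofinite_eq_atTop] at hev
  filter_upwards [hev] with t ht
  rw [hheval] at ht
  have e1 : (fun i : Fin (n + 1 + 1) =>
      ((pre d (fun i => if i = 1 then (t : ℤ) else z i) i : ℤ) : Qbar)) =
      fun i : Fin (n + 1 + 1) =>
        pre d (fun j => if j = 1 then (t : Qbar) else ((z j : ℤ) : Qbar)) i := by
    funext i
    have h2 := map_pre (Int.castRingHom Qbar) d (fun i => if i = 1 then (t : ℤ) else z i) i
    refine Eq.trans h2 ?_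
    congr 1
    funext j
    split_ifs <;> simp
  rw [e1]
  exact ht

lemma gcd_one {ι : Type*} [Fintype ι] (x : ι → ℤ) (i : ι) (hi : x i = 1) :
    Finset.univ.gcd x = 1 := by
  have h1 : Finset.univ.gcd x ∣ x i := Finset.gcd_dvd (Finset.mem_univ i)
  rw [hi] at h1
  have h2 := Finset.normalize_gcd (s := Finset.univ) (f := x)
  have h3 : (0 : ℤ) ≤ Finset.univ.gcd x := Int.nonneg_of_normalize_eq_self h2
  exact Int.eq_one_of_dvd_one h3 h1

lemma mu_shift {n : ℕ} (hn : 1 ≤ n) {d : ℕ} (hd : 2 ≤ d) :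
    (shiftMap hn hd).mu ≤ ((1 / (d : ℝ) ^ n : ℝ) : EReal) := by
  refine iSup_le fun U => iSup_le fun hU => iSup_le fun hne => ?_
  obtain ⟨T, hT, rfl⟩ := hU
  obtain ⟨P0, F, hF, hPF⟩ := hne
  obtain ⟨e, he⟩ := hT F hF
  have hF0 : F ≠ 0 := by rintro rfl; exact hPF (map_zero _)
  obtain ⟨z, hz⟩ := avoid d F he hF0
  obtain ⟨c, hc, hgrow⟩ := growth hd z n
  have hD : (0 : ℝ) < (d : ℝ) ^ n := by
    have : (0 : ℝ) < d := by exact_mod_cast (by omega : 0 < d)
    positivity
  refine le_of_forall_gt_imp_ge_of_dense fun a ha => ?_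
  obtain ⟨b, hb, hba⟩ := EReal.lt_iff_exists_real_btwn.mp ha
  rw [EReal.coe_lt_coe_iff] at hb
  refine le_trans ?_ hba.le
  apply Filter.liminf_le_of_frequently_le'
  rw [Filter.frequently_comap, Filter.frequently_atTop]
  intro K
  have hbD : 0 < b * (d : ℝ) ^ n - 1 := by
    rw [div_lt_iff₀ hD] at hb; linarith
  have hlog : Filter.Tendsto (fun t : ℕ => Real.log (t : ℝ)) Filter.atTop Filter.atTop :=
    Real.tendsto_log_atTop.comp tendsto_natCast_atTop_atTop
  have e1 : ∀ᶠ t : ℕ in Filter.atTop, ∀ i : Fin (n + 1 + 1), |z i| ≤ (t : ℤ) := by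
    rw [Filter.eventually_all]
    intro i
    filter_upwards [Filter.eventually_ge_atTop (z i).natAbs] with t ht
    rw [Int.abs_eq_natAbs]
    exact_mod_cast ht
  have e2 : ∀ᶠ t : ℕ in Filter.atTop, max K 1 ≤ (d : ℝ) ^ n * Real.log t + Real.log c := by
    have h1 : Filter.Tendsto (fun t : ℕ => (d : ℝ) ^ n * Real.log t + Real.log c)
        Filter.atTop Filter.atTop :=
      Filter.tendsto_atTop_add_const_right _ _ (hlog.const_mul_atTop hD)
    exact h1.eventually_ge_atTop _
  have e3 : ∀ᶠ t : ℕ in Filter.atTop, -(b * Real.log c) ≤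
      (b * (d : ℝ) ^ n - 1) * Real.log t :=
    (hlog.const_mul_atTop hbD).eventually_ge_atTop _
  obtain ⟨t, ht1, ht2, ht3, ht4, ht5, ht6⟩ :=
    (hz.and (hgrow.and (e1.and (e2.and (e3.and (Filter.eventually_ge_atTop 1)))))).exists
  -- the point
  set y : ℕ → ℤ := fun i => if i = 1 then (t : ℤ) else z i with hy
  set x : Fin (n + 1 + 1) → ℤ := fun i => pre d y i with hx
  have hx0 : x 0 = 1 := rfl
  have hxq : (fun i => ((x i : ℤ) : Qbar)) =
      fun i : Fin (n + 1 + 1) => pre d (fun j => ((y j : ℤ) : Qbar)) i := by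
    funext i
    exact map_pre (Int.castRingHom Qbar) d y i
  have hxne : (fun i => ((x i : ℤ) : Qbar)) ≠ 0 := by
    intro h
    have := congrFun h 0
    simp [hx0] at this
  set w : Fin (n + 1 + 1) → ℤ := fun i => if (i : ℕ) = 0 then 1 else y i with hw
  have hform : (fun i => MvPolynomial.eval (fun i => ((x i : ℤ) : Qbar))
      ((shiftMap hn hd).form i)) = fun i => ((w i : ℤ) : Qbar) := by
    rw [hxq]
    have := eval_shift n (d := d) (fun j => ((y j : ℤ) : Qbar))
    refine Eq.trans this ?_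
    funext i
    simp only [hw]
    split_ifs <;> simp
  have hw0 : w 0 = 1 := by simp [hw]
  have hwne : (fun i => MvPolynomial.eval (fun i => ((x i : ℤ) : Qbar))
      ((shiftMap hn hd).form i)) ≠ 0 := by
    rw [hform]
    intro h
    have := congrFun h 0
    simp [hw0] at this
  obtain ⟨hdef, hval⟩ := value_mk (shiftMap hn hd) _ hxne hwne
  set P : PSpace (n + 1) := Projectivization.mk Qbar _ hxne with hP
  have hPU : P ∈ {P : PSpace (n + 1) | ∃ F ∈ T, MvPolynomial.eval P.rep F ≠ 0} :=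
    ⟨F, hF, (eval_mk he _ hxne).mpr ht1⟩
  -- heights
  have hh1 : (d : ℝ) ^ n * Real.log t + Real.log c ≤ ht P := by
    rw [hP, ht_mk, absLogHeight_int x (gcd_one x 0 hx0)]
    have ht0 : (0 : ℝ) < t := by exact_mod_cast ht6
    have h1 : Real.log (c * (t : ℝ) ^ (d ^ n)) = (d : ℝ) ^ n * Real.log t + Real.log c := by
      rw [Real.log_mul hc.ne' (by positivity), Real.log_pow]
      push_cast
      ring
    rw [← h1]
    apply Real.log_le_log (by positivity)
    refine ht2.trans ?_
    have h2 : |x (Fin.last (n + 1))| ≤ ⨆ i, |x i| :=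
      le_ciSup (f := fun i => |x i|) (Set.finite_range _).bddAbove _
    have h3 : (|x (Fin.last (n + 1))| : ℤ) = |pre d y (n + 1)| := rfl
    rw [h3] at h2
    exact_mod_cast h2
  have hh2 : ht ((shiftMap hn hd).value P hdef) ≤ Real.log t := by
    have h0 : ht ((shiftMap hn hd).value P hdef) = absLogHeight (fun i => ((w i : ℤ) : Qbar)) := by
      rw [hval, ht_mk]
      congr 1
    rw [h0, absLogHeight_int w (gcd_one w 0 hw0)]
    have h1 : ⨆ i, |w i| ≤ (t : ℤ) := by
      apply ciSup_le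
      intro i
      simp only [hw, hy]
      split_ifs
      · simpa using ht6
      · simp
      · exact ht3 i
    have h2 : 1 ≤ ⨆ i, |w i| := by
      have := le_ciSup (f := fun i => |w i|) (Set.finite_range _).bddAbove 0
      simpa [hw0] using this
    apply Real.log_le_log
    · exact_mod_cast (by omega : (0 : ℤ) < ⨆ i, |w i|)
    · exact_mod_cast h1
  refine ⟨ht P, ((le_max_left _ _).trans ht4).trans hh1, ⟨P, hPU, hdef⟩, rfl, ?_⟩
  rw [EReal.coe_le_coe_iff]
  have hq : 1 ≤ ht P := ((le_max_right _ _).trans ht4).trans hh1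
  rw [div_le_iff₀ (by linarith)]
  have hb0 : 0 < b := lt_trans (by positivity) hb
  refine hh2.trans ?_
  have h5 := mul_le_mul_of_nonneg_left hh1 hb0.le
  refine le_trans ?_ h5
  linarith

/-- **The minimal height expansion ratio.** For `N, d ≥ 2` the infimum of the height expansion
ratios of the dominant rational self-maps of degree `d` of projective `N`-space is
`1 / d ^ (N - 1)`. -/
theorem result (N d : ℕ) (hN : 2 ≤ N) (hd : 2 ≤ d) :
    muBar N d = ((1 / (d : ℝ) ^ (N - 1) : ℝ) : EReal) := by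
  obtain ⟨n, rfl⟩ : ∃ n, N = n + 1 := ⟨N - 1, by omega⟩
  rw [Nat.add_sub_cancel]
  apply le_antisymm
  · exact iInf_le_of_le (shiftMap (by omega) hd) (iInf_le_of_le (shift_dominant _ hd)
      (mu_shift _ hd))
  · exact le_iInf fun f => le_iInf fun hf => le_mu n (by omega) f hf

end Pool.Agent.Results.MP_3d4caa_nt.ExactValue
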